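import Pool.Agent.S11046

set_option autoImplicit false

open Pool Pool.Agent.H60 Pool.Agent.S11046

namespace Pool.Agent.Results.MP_b9906a_co.EqualImages

universe u

section Defs

variable {K : Type u} [Field K]

/-- The `q`-polynomial `a_0 x + a_1 x^q + ... + a_(n-1) x^(q^(n-1))`, as a map. -/
def qPoly (q n : ℕ) (a : Fin n → K) : K → K := fun x => ∑ k : Fin n, a k * x ^ q ^ (k : ℕ)

/-- The map `x ↦ ∑ a_k^(q^(n-k)) x^(q^(n-k))`, the adjoint of the `q`-polynomial with
coefficients `a`. -/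
def adj (q n : ℕ) (a : Fin n → K) : K → K :=
  fun x => ∑ k : Fin n, a k ^ q ^ (n - (k : ℕ)) * x ^ q ^ (n - (k : ℕ))

/-- The trace `x + x^q + ... + x^(q^(n-1))`. -/
def tr (q n : ℕ) (x : K) : K := ∑ k ∈ Finset.range n, x ^ q ^ k

/-- The norm `x^(1 + q + ... + q^(n-1))`. -/
def nrm (q n : ℕ) (x : K) : K := ∏ k ∈ Finset.range n, x ^ q ^ k

/-- `h` is adjoint to `f` for the trace form. -/
def IsAdjoint (q n : ℕ) (f h : K → K) : Prop := ∀ x y, tr q n (x * f y) = tr q n (y * h x)

/-- `f` is linear over the subfield `L`. -/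
def LinearOver (L : Subfield K) (f : K → K) : Prop :=
  (∀ x y, f (x + y) = f x + f y) ∧ ∀ c ∈ L, ∀ x, f (c * x) = c * f x

/-- There is a largest subfield over which `f` is linear, and it has `q` elements. -/
def MaxField (q : ℕ) (f : K → K) : Prop :=
  ∃ L : Subfield K, Nat.card L = q ∧ LinearOver L f ∧
    ∀ L' : Subfield K, LinearOver L' f → L' ≤ L

/-- The set of all `f(x)/x`, `x ≠ 0`. -/
def images (f : K → K) : Set K := {z | ∃ x : K, x ≠ 0 ∧ z = f x / x}

/-- The graph of `f` in the plane. -/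
def graph (f : K → K) : Set (Fin 2 → K) := Set.range fun x => ![x, f x]

/-- The map `v ↦ M v^σ` of the plane. -/
def semi (M : Matrix (Fin 2) (Fin 2) K) (σ : K ≃+* K) (v : Fin 2 → K) : Fin 2 → K :=
  M.mulVec fun i => σ (v i)

/-- Alternative (a) of Q1. -/
def AltA (q n : ℕ) (f g : K → K) : Prop :=
  ∃ (M : Matrix (Fin 2) (Fin 2) K) (σ : K ≃+* K) (α β : K) (i j : ℕ),
    M.det ≠ 0 ∧ Nat.Coprime i n ∧ Nat.Coprime j n ∧
      semi M σ '' graph f = graph (fun x => α * x ^ q ^ i) ∧
      semi M σ '' graph g = graph (fun x => β * x ^ q ^ j) ∧ nrm q n α = nrm q n β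

/-- Alternative (b) of Q1 for the `q`-polynomials with coefficients `a` and `b`. -/
def AltB (q n : ℕ) (a b : Fin n → K) : Prop :=
  ∃ l : K, l ≠ 0 ∧ ((∀ x, qPoly q n b x = qPoly q n a (l * x) / l) ∨
    ∀ x, qPoly q n b x = adj q n a (l * x) / l)

end Defs

/-- The assertion of Q1. -/
def Assertion : Prop :=
  ∀ q n : ℕ, IsPrimePow q → 5 < n → ∀ (K : Type u) [Field K], Nat.card K = q ^ n →
    ∀ a b : Fin n → K, MaxField q (qPoly q n a) → MaxField q (qPoly q n b) →
      images (qPoly q n a) = images (qPoly q n b) →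
      AltA q n (qPoly q n a) (qPoly q n b) ∨ AltB q n a b

/-! ### Computations in the model -/

theorem qa (x : F64) : qPoly 2 6 ca x = fF x := sum_a x
theorem qb (x : F64) : qPoly 2 6 cb x = gF x := sum_b x

theorem lin_f : ∀ c : F64, (∀ x, fF (c * x) = c * fF x) → c * c = c := by decide +kernel
theorem lin_g : ∀ c : F64, (∀ x, gF (c * x) = c * gF x) → c * c = c := by decide +kernel

/-- The trace of the model. -/
def trF (x : F64) : F64 :=
  let x2 := x * x
  let x4 := x2 * x2
  let x8 := x4 * x4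
  let x16 := x8 * x8
  let x32 := x16 * x16
  x + x2 + x4 + x8 + x16 + x32

theorem trF_eq (x : F64) : tr 2 6 x = trF x := by
  simp [tr, trF, Finset.sum_range_succ]
  ring

theorem nondeg : ∀ c : F64, c ≠ 0 → ∃ y : F64, trF (y * c) ≠ 0 := by decide +kernel

theorem adjF : ∀ x y : F64, trF (x * fF y) = trF (y * hF x) := by decide +kernel

theorem conj_th : ∀ t : F64, t * t * t * (t * t * t) = t + 1 → ∃ j : Fin 6, t = th ^ 2 ^ (j : ℕ) := by
  decide +kernel

/-! ### Transport to any field with 64 elements -/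

section Transport

variable {K : Type u} [Field K] (e : F64 ≃+* K)

theorem qPoly_map (q n : ℕ) (a : Fin n → F64) (x : F64) :
    qPoly q n (fun k => e (a k)) (e x) = e (qPoly q n a x) := by
  simp [qPoly, map_sum, map_mul, map_pow]

theorem adj_map (q n : ℕ) (a : Fin n → F64) (x : F64) :
    adj q n (fun k => e (a k)) (e x) = e (adj q n a x) := by
  simp [adj, map_sum, map_mul, map_pow]

theorem tr_map (q n : ℕ) (x : F64) : tr q n (e x) = e (tr q n x) := by
  simp [tr, map_sum, map_pow]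

/-- The transported coefficients of `f`. -/
def fa : Fin 6 → K := fun k => e (ca k)
/-- The transported coefficients of `g`. -/
def fb : Fin 6 → K := fun k => e (cb k)

theorem ka (x : F64) : qPoly 2 6 (fa e) (e x) = e (fF x) := by
  have := qPoly_map e 2 6 ca x
  rw [qa] at this
  exact this

theorem kb (x : F64) : qPoly 2 6 (fb e) (e x) = e (gF x) := by
  have := qPoly_map e 2 6 cb x
  rw [qb] at this
  exact this

include e in
theorem char2 : CharP K 2 := by
  refine CharTwo.of_one_ne_zero_of_two_eq_zero one_ne_zero ?_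
  have h : (2 : F64) = 0 := by decide +kernel
  have h2 : e (2 : F64) = (2 : K) := map_ofNat e 2
  rw [← h2, h, map_zero]

theorem maxField_of (a : Fin 6 → K) (f0 : F64 → F64)
    (hf : ∀ x, qPoly 2 6 a (e x) = e (f0 x))
    (hl : ∀ c : F64, (∀ x, f0 (c * x) = c * f0 x) → c * c = c) : MaxField 2 (qPoly 2 6 a) := by
  have : CharP K 2 := char2 e
  have : Fact (Nat.Prime 2) := ⟨Nat.prime_two⟩
  have hadd : ∀ x y, qPoly 2 6 a (x + y) = qPoly 2 6 a x + qPoly 2 6 a y := by
    intro x y
    unfold qPoly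
    rw [← Finset.sum_add_distrib]
    refine Finset.sum_congr rfl fun k _ => ?_
    rw [add_pow_char_pow, mul_add]
  refine ⟨⊥, Subfield.card_bot K 2, ⟨hadd, ?_⟩, ?_⟩
  · intro c hc x
    rw [Subfield.mem_bot_iff_pow_eq_self K 2] at hc
    have hk : ∀ m : ℕ, c ^ 2 ^ m = c := by
      intro m
      induction m with
      | zero => simp
      | succ m ih => rw [pow_succ, pow_mul, ih, hc]
    unfold qPoly
    rw [Finset.mul_sum]
    refine Finset.sum_congr rfl fun k _ => ?_
    rw [mul_pow, hk]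
    ring
  · intro L' hL c hc
    rw [Subfield.mem_bot_iff_pow_eq_self K 2]
    obtain ⟨c, rfl⟩ := e.surjective c
    have h := hl c (fun x => by
      apply e.injective
      have h1 := hL.2 _ hc (e x)
      rw [← map_mul, hf, hf, ← map_mul] at h1
      exact h1)
    rw [← map_pow, pow_two, h]

theorem images_eq : images (qPoly 2 6 (fa e)) = images (qPoly 2 6 (fb e)) := by
  ext z
  constructor
  · rintro ⟨x, hx, rfl⟩
    obtain ⟨x, rfl⟩ := e.surjective x
    have hx0 : x ≠ 0 := by rintro rfl; exact hx (map_zero e)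
    obtain ⟨y, hy, h⟩ := im1 x hx0
    refine ⟨e y, fun h0 => hy ((map_eq_zero_iff e e.injective).1 h0), ?_⟩
    rw [ka, kb, ← map_div₀, ← map_div₀, h]
  · rintro ⟨x, hx, rfl⟩
    obtain ⟨x, rfl⟩ := e.surjective x
    have hx0 : x ≠ 0 := by rintro rfl; exact hx (map_zero e)
    obtain ⟨y, hy, h⟩ := im2 x hx0
    refine ⟨e y, fun h0 => hy ((map_eq_zero_iff e e.injective).1 h0), ?_⟩
    rw [ka, kb, ← map_div₀, ← map_div₀, h]

theorem no_graph (M : Matrix (Fin 2) (Fin 2) K) (σ : K ≃+* K) (hM : M.det ≠ 0) (α : K) (i : ℕ)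
    (hi : Nat.Coprime i 6) :
    semi M σ '' graph (qPoly 2 6 (fa e)) ≠ graph (fun x => α * x ^ 2 ^ i) := by
  intro h
  have hs : ∀ v : F64, e ((e.trans (σ.trans e.symm)) v) = σ (e v) := by
    intro v; simp
  refine no_a (e.trans (σ.trans e.symm)) (e.symm (M 0 0)) (e.symm (M 0 1)) (e.symm (M 1 0))
    (e.symm (M 1 1)) (e.symm α) i ?_ hi ?_
  · intro h0
    apply hM
    have h1 := congrArg e h0
    rw [map_sub, map_mul, map_mul, map_zero] at h1
    simp only [RingEquiv.apply_symm_apply] at h1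
    rw [Matrix.det_fin_two]
    linear_combination h1
  · have key : ∀ x : F64, semi M σ ![e x, qPoly 2 6 (fa e) (e x)] =
        ![e (e.symm (M 0 0) * (e.trans (σ.trans e.symm)) x +
            e.symm (M 0 1) * (e.trans (σ.trans e.symm)) (fF x)),
          e (e.symm (M 1 0) * (e.trans (σ.trans e.symm)) x +
            e.symm (M 1 1) * (e.trans (σ.trans e.symm)) (fF x))] := by
      intro x
      rw [map_add, map_add, map_mul, map_mul, map_mul, map_mul, hs, hs, ka]
      simp only [RingEquiv.apply_symm_apply]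
      funext t
      fin_cases t <;> simp [semi, Matrix.mulVec, dotProduct, Fin.sum_univ_two]
    ext ⟨p, r⟩
    constructor
    · rintro ⟨x, hx⟩
      have h1 : semi M σ ![e x, qPoly 2 6 (fa e) (e x)] ∈
          semi M σ '' graph (qPoly 2 6 (fa e)) := ⟨_, ⟨e x, rfl⟩, rfl⟩
      rw [h, key] at h1
      obtain ⟨y, hy⟩ := h1
      have hx' := Prod.ext_iff.1 hx
      simp only at hx'
      have e0 : y = e p := by
        have := congrFun hy 0
        simp only [Matrix.cons_val_zero] at this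
        rw [this, hx'.1]
      have e1 : α * y ^ 2 ^ i = e r := by
        have := congrFun hy 1
        simp only [Matrix.cons_val_one, Matrix.cons_val_zero] at this
        rw [this, hx'.2]
      refine ⟨p, ?_⟩
      apply Prod.ext
      · rfl
      · apply e.injective
        rw [← e1, e0]
        simp
    · rintro ⟨y, hy⟩
      have hy' := Prod.ext_iff.1 hy
      simp only at hy'
      have h1 : (![e y, α * (e y) ^ 2 ^ i] : Fin 2 → K) ∈ graph (fun x => α * x ^ 2 ^ i) :=
        ⟨e y, rfl⟩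
      rw [← h] at h1
      obtain ⟨v, ⟨x, rfl⟩, hv⟩ := h1
      obtain ⟨x, rfl⟩ := e.surjective x
      rw [key] at hv
      refine ⟨x, ?_⟩
      apply Prod.ext
      · apply e.injective
        have := congrFun hv 0
        simp only [Matrix.cons_val_zero] at this
        simp only
        rw [this, hy'.1]
      · apply e.injective
        have := congrFun hv 1
        simp only [Matrix.cons_val_one, Matrix.cons_val_zero] at this
        simp only
        rw [this, ← hy'.2]
        simp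

theorem no_b1 (l : K) (hl : l ≠ 0) : ∃ x, qPoly 2 6 (fb e) x ≠ qPoly 2 6 (fa e) (l * x) / l := by
  obtain ⟨l, rfl⟩ := e.surjective l
  have hl0 : l ≠ 0 := by rintro rfl; exact hl (map_zero e)
  obtain ⟨x, hx⟩ := nb1 l hl0
  refine ⟨e x, fun h => hx ?_⟩
  rw [kb, ← map_mul, ka, ← map_div₀] at h
  exact e.injective h

theorem adjoint_unique (h : K → K) (hh : IsAdjoint 2 6 (qPoly 2 6 (fa e)) h) (x : F64) :
    h (e x) = e (hF x) := by
  obtain ⟨z, hz⟩ := e.surjective (h (e x))
  rw [← hz]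
  congr 1
  by_contra hne
  obtain ⟨y, hy⟩ := nondeg (z - hF x) (sub_ne_zero.2 hne)
  apply hy
  have h1 := hh (e x) (e y)
  rw [ka, ← hz, ← map_mul, ← map_mul, tr_map, tr_map, trF_eq, trF_eq] at h1
  have h2 : trF (x * fF y) = trF (y * z) := e.injective h1
  rw [adjF] at h2
  have hlin : ∀ u v : F64, trF (u - v) = trF u - trF v := by
    have : CharP F64 2 := char2 (RingEquiv.refl F64)
    have : Fact (Nat.Prime 2) := ⟨Nat.prime_two⟩
    intro u v
    rw [← trF_eq, ← trF_eq, ← trF_eq]
    unfold tr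
    rw [← Finset.sum_sub_distrib]
    refine Finset.sum_congr rfl fun k _ => ?_
    rw [sub_pow_char_pow]
  rw [mul_sub, hlin, h2, sub_self]

theorem adjK (x : F64) : adj 2 6 (fa e) (e x) = e (hF x) := by
  have := adj_map e 2 6 ca x
  rw [show adj 2 6 ca x = hF x from sum_adj x] at this
  exact this

theorem isAdj : IsAdjoint 2 6 (qPoly 2 6 (fa e)) (adj 2 6 (fa e)) := by
  intro x y
  obtain ⟨x, rfl⟩ := e.surjective x
  obtain ⟨y, rfl⟩ := e.surjective y
  rw [ka, adjK, ← map_mul, ← map_mul, tr_map, tr_map, trF_eq, trF_eq, adjF]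

theorem no_b2 (h : K → K) (hh : IsAdjoint 2 6 (qPoly 2 6 (fa e)) h) (l : K) (hl : l ≠ 0) :
    ∃ x, qPoly 2 6 (fb e) x ≠ h (l * x) / l := by
  obtain ⟨l, rfl⟩ := e.surjective l
  have hl0 : l ≠ 0 := by rintro rfl; exact hl (map_zero e)
  obtain ⟨x, hx⟩ := nb2 l hl0
  refine ⟨e x, fun h1 => hx ?_⟩
  rw [kb, ← map_mul, adjoint_unique e h hh, ← map_div₀] at h1
  exact e.injective h1

end Transport

theorem exists_equiv {K : Type u} [Field K] (hK : Nat.card K = 64) (t : K)
    (ht : t ^ 6 = t + 1) : ∃ e : F64 ≃+* K, e th = t := by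
  have : Finite K := Nat.finite_of_card_ne_zero (by rw [hK]; norm_num)
  let _ : Fintype K := Fintype.ofFinite K
  have hc : Fintype.card F64 = Fintype.card K := by
    rw [card64, ← Nat.card_eq_fintype_card, hK]; norm_num
  let e0 : F64 ≃+* K := FiniteField.ringEquivOfCardEq hc
  have : CharP F64 2 := char2 (RingEquiv.refl F64)
  have : Fact (Nat.Prime 2) := ⟨Nat.prime_two⟩
  have h0 : (e0.symm t) * (e0.symm t) * (e0.symm t) * ((e0.symm t) * (e0.symm t) * (e0.symm t)) =
      e0.symm t + 1 := by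
    have := congrArg e0.symm ht
    rw [map_pow, map_add, map_one] at this
    rw [← this]; ring
  obtain ⟨j, hj⟩ := conj_th _ h0
  refine ⟨(iterateFrobeniusEquiv F64 2 (j : ℕ)).trans e0, ?_⟩
  rw [RingEquiv.trans_apply, iterateFrobeniusEquiv_def, ← hj, RingEquiv.apply_symm_apply]

/-- For every field `K` with `64` elements and every `t` in `K` with `t^6 = t + 1` (such `t`
exist), the `2`-polynomials `f = x^4 + t x^8 + x^32` and `g = x^4 + t^8 x^8 + x^32` refute Q1. -/
theorem result :
    (∀ (K : Type u) [Field K], Nat.card K = 64 → (∃ t : K, t ^ 6 = t + 1) ∧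
      ∀ t : K, t ^ 6 = t + 1 → ∀ f g : K → K, (f = fun x => x ^ 4 + t * x ^ 8 + x ^ 32) →
        (g = fun x => x ^ 4 + t ^ 8 * x ^ 8 + x ^ 32) →
        MaxField 2 f ∧ MaxField 2 g ∧ images f = images g ∧
        (∀ (M : Matrix (Fin 2) (Fin 2) K) (σ : K ≃+* K), M.det ≠ 0 → ∀ (α : K) (i : ℕ),
          Nat.Coprime i 6 → semi M σ '' graph f ≠ graph fun x => α * x ^ 2 ^ i) ∧
        (∀ l : K, l ≠ 0 → ∃ x, g x ≠ f (l * x) / l) ∧
        (∃ h, IsAdjoint 2 6 f h) ∧
        ∀ h : K → K, IsAdjoint 2 6 f h → ∀ l : K, l ≠ 0 → ∃ x, g x ≠ h (l * x) / l) ∧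
    ¬ Assertion.{u} := by
  have main : ∀ (K : Type u) [Field K] (e : F64 ≃+* K),
      MaxField 2 (qPoly 2 6 (fa e)) ∧ MaxField 2 (qPoly 2 6 (fb e)) ∧
      images (qPoly 2 6 (fa e)) = images (qPoly 2 6 (fb e)) ∧
        (∀ (M : Matrix (Fin 2) (Fin 2) K) (σ : K ≃+* K), M.det ≠ 0 → ∀ (α : K) (i : ℕ),
          Nat.Coprime i 6 → semi M σ '' graph (qPoly 2 6 (fa e)) ≠ graph fun x => α * x ^ 2 ^ i) ∧
        (∀ l : K, l ≠ 0 → ∃ x, qPoly 2 6 (fb e) x ≠ qPoly 2 6 (fa e) (l * x) / l) ∧
        (∃ h, IsAdjoint 2 6 (qPoly 2 6 (fa e)) h) ∧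
        ∀ h : K → K, IsAdjoint 2 6 (qPoly 2 6 (fa e)) h → ∀ l : K, l ≠ 0 →
          ∃ x, qPoly 2 6 (fb e) x ≠ h (l * x) / l := by
    intro K _ e
    exact ⟨maxField_of e _ _ (ka e) lin_f, maxField_of e _ _ (kb e) lin_g, images_eq e,
      fun M σ hM α i hi => no_graph e M σ hM α i hi, no_b1 e, ⟨_, isAdj e⟩, no_b2 e⟩
  have th6 : th ^ 6 = th + 1 := by decide +kernel
  refine ⟨?_, ?_⟩
  · intro K _ hK
    constructor
    · have : Finite K := Nat.finite_of_card_ne_zero (by rw [hK]; norm_num)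
      let _ : Fintype K := Fintype.ofFinite K
      have hc : Fintype.card F64 = Fintype.card K := by
        rw [card64, ← Nat.card_eq_fintype_card, hK]; norm_num
      refine ⟨FiniteField.ringEquivOfCardEq hc th, ?_⟩
      rw [← map_pow, th6, map_add, map_one]
    · intro t ht f g hf hg
      obtain ⟨e, he⟩ := exists_equiv hK t ht
      have h1 : f = qPoly 2 6 (fa e) := by
        rw [hf]
        funext x
        obtain ⟨x, rfl⟩ := e.surjective x
        rw [ka, ← he]
        simp only [fF, map_add, map_mul]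
        ring
      have h2 : g = qPoly 2 6 (fb e) := by
        rw [hg]
        funext x
        obtain ⟨x, rfl⟩ := e.surjective x
        have h8 : e th ^ 8 = e th8 := by rw [← map_pow, th_pow]
        rw [kb, ← he, h8]
        simp only [gF, map_add, map_mul]
        ring
      rw [h1, h2]
      exact main K e
  · intro H
    let K := ULift.{u} F64
    let e : F64 ≃+* K := ULift.ringEquiv.symm
    have hcard : Nat.card K = 2 ^ 6 := by
      rw [← Nat.card_congr e.toEquiv, Nat.card_eq_fintype_card, card64]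
    obtain ⟨m1, m2, m3, m4, m5, -, m7⟩ := main K e
    rcases H 2 6 Nat.prime_two.isPrimePow (by norm_num) K hcard (fa e) (fb e) m1 m2 m3 with h | h
    · obtain ⟨M, σ, α, β, i, j, hM, hi, hj, h1, -, -⟩ := h
      exact m4 M σ hM α i hi h1
    · obtain ⟨l, hl, h | h⟩ := h
      · obtain ⟨x, hx⟩ := m5 l hl
        exact hx (h x)
      · obtain ⟨x, hx⟩ := m7 _ (isAdj e) l hl
        exact hx (h x)

end Pool.Agent.Results.MP_b9906a_co.EqualImages
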